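import Pool.Agent.Helper11.LE.Goals2
import Pool.Agent.Helper60.RD.BEX
import Pool.Agent.Helper3.RS.REP

/-!
# Project LE (MP_fc6b1e_nt), packet L_RCF: the ray class group modulo `p` is finite
-/

namespace Pool.Agent.Helper26.LE

open NumberField Module IsDedekindDomain
open Pool.Agent.Helper51.RP
open Pool.Agent.Helper60.RD (dv dv_mul dv_one dv_prime dv_apply Gen span_gen)
open UniqueFactorizationMonoid
open Pool.Agent.Helper40.RS (val_count)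

section

variable {F : Type} [Field F] [NumberField F] (p : ℕ) [Fact p.Prime]

/-- The ideals not prime to `𝔫`. -/
def Hn (𝔫 : Ideal (𝓞 F)) : Set (Ideal (𝓞 F)) := {P | P ⊔ 𝔫 ≠ ⊤}

/-- The subspace generated by the non coprime primes and by the divisors of the elements congruent to
`1` modulo `𝔫`. -/
noncomputable def Wn (𝔫 : Ideal (𝓞 F)) : Submodule (ZMod p) (Ideal (𝓞 F) →₀ ZMod p) :=
  Submodule.span (ZMod p) (Gen p 𝔫 (Hn 𝔫))

/-- The divisors generated by the primes which do not divide `𝔫`. -/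
noncomputable def Vn (𝔫 : Ideal (𝓞 F)) : Submodule (ZMod p) (Ideal (𝓞 F) →₀ ZMod p) :=
  Submodule.span (ZMod p)
    {x | ∃ Q : HeightOneSpectrum (𝓞 F), Q.asIdeal ⊔ 𝔫 = ⊤ ∧ x = Finsupp.single Q.asIdeal 1}

omit [NumberField F] in
theorem cop_mul {𝔫 I J : Ideal (𝓞 F)} (hI : I ⊔ 𝔫 = ⊤) (hJ : J ⊔ 𝔫 = ⊤) : I * J ⊔ 𝔫 = ⊤ := by
  rw [← Ideal.isCoprime_iff_sup_eq] at *
  exact IsCoprime.mul_left hI hJ

theorem dv_pow' {I : Ideal (𝓞 F)} (hI : I ≠ ⊥) (k : ℕ) : dv p (I ^ k) = k • dv p I := by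
  induction k with
  | zero => rw [pow_zero, dv_one, zero_smul]
  | succ k ih => rw [pow_succ, dv_mul p (pow_ne_zero k hI) hI, ih, succ_nsmul]

theorem exists_ideal (𝔫 : Ideal (𝓞 F)) (v : Ideal (𝓞 F) →₀ ZMod p) (hv : v ∈ Vn p 𝔫) :
    ∃ I : Ideal (𝓞 F), I ≠ ⊥ ∧ I ⊔ 𝔫 = ⊤ ∧ dv p I = v := by
  unfold Vn at hv
  induction hv using Submodule.span_induction with
  | mem x hx =>
    obtain ⟨Q, hQ, rfl⟩ := hx
    exact ⟨Q.asIdeal, Q.ne_bot, hQ, dv_prime p Q⟩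
  | zero => exact ⟨1, by simp, by simp, dv_one p⟩
  | add x y _ _ hx hy =>
    obtain ⟨I, h1, h2, h3⟩ := hx
    obtain ⟨J, k1, k2, k3⟩ := hy
    exact ⟨I * J, mul_ne_zero h1 k1, cop_mul h2 k2, by rw [dv_mul p h1 k1, h3, k3]⟩
  | smul a x _ hx =>
    obtain ⟨I, h1, h2, h3⟩ := hx
    refine ⟨I ^ a.val, pow_ne_zero _ h1, ?_, ?_⟩
    · rw [← Ideal.isCoprime_iff_sup_eq] at *
      exact IsCoprime.pow_left h2
    · rw [dv_pow' p h1, h3]
      ext P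
      rw [Finsupp.smul_apply, Finsupp.smul_apply, nsmul_eq_mul, ZMod.natCast_zmod_val, smul_eq_mul]

theorem key {𝔫 I I' c : Ideal (𝓞 F)} {α α' : 𝓞 F} (hI : I ≠ ⊥) (hI' : I' ≠ ⊥) (hc : c ≠ ⊥)
    (hIn : I ⊔ 𝔫 = ⊤) (hcn : c ⊔ 𝔫 = ⊤) (h : I * c = Ideal.span {α}) (h' : I' * c = Ideal.span {α'})
    (hα : α' - α ∈ 𝔫) : dv p I - dv p I' ∈ Wn p 𝔫 := by
  have hα0 : α ≠ 0 := by
    rintro rfl
    rw [Ideal.span_singleton_eq_bot.2 rfl] at h
    exact mul_ne_zero hI hc h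
  have hα'0 : α' ≠ 0 := by
    rintro rfl
    rw [Ideal.span_singleton_eq_bot.2 rfl] at h'
    exact mul_ne_zero hI' hc h'
  obtain ⟨γ, hγ0, hγ⟩ : ∃ γ : 𝓞 F, γ ≠ 0 ∧ α * γ - 1 ∈ 𝔫 := by
    by_cases ht : 𝔫 = ⊤
    · exact ⟨1, one_ne_zero, by rw [ht]; trivial⟩
    · have h1 : Ideal.span {α} ⊔ 𝔫 = ⊤ := by
        rw [← h]
        exact cop_mul hIn hcn
      rw [Ideal.eq_top_iff_one, Submodule.mem_sup] at h1
      obtain ⟨y, hy, z, hz, hyz⟩ := h1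
      obtain ⟨γ, rfl⟩ := Ideal.mem_span_singleton'.1 hy
      refine ⟨γ, ?_, ?_⟩
      · rintro rfl
        apply ht
        rw [Ideal.eq_top_iff_one, ← hyz]
        simpa using hz
      · have : α * γ - 1 = -z := by
          rw [← hyz]
          ring
        rw [this]
        exact 𝔫.neg_mem hz
  have hγ' : α' * γ - 1 ∈ 𝔫 := by
    have : α' * γ - 1 = γ * (α' - α) + (α * γ - 1) := by ring
    rw [this]
    exact 𝔫.add_mem (𝔫.mul_mem_left _ hα) hγ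
  have m1 : dv p (Ideal.span {α * γ}) ∈ Wn p 𝔫 :=
    Submodule.subset_span (Or.inr ⟨α * γ, mul_ne_zero hα0 hγ0, hγ, rfl⟩)
  have m2 : dv p (Ideal.span {α' * γ}) ∈ Wn p 𝔫 :=
    Submodule.subset_span (Or.inr ⟨α' * γ, mul_ne_zero hα'0 hγ0, hγ', rfl⟩)
  have e1 : dv p (Ideal.span {α * γ}) = dv p I + dv p c + dv p (Ideal.span {γ}) := by
    rw [← Ideal.span_singleton_mul_span_singleton,
      dv_mul p (by simpa using hα0) (by simpa using hγ0), ← h, dv_mul p hI hc]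
  have e2 : dv p (Ideal.span {α' * γ}) = dv p I' + dv p c + dv p (Ideal.span {γ}) := by
    rw [← Ideal.span_singleton_mul_span_singleton,
      dv_mul p (by simpa using hα'0) (by simpa using hγ0), ← h', dv_mul p hI' hc]
  have e3 : dv p I - dv p I' = dv p (Ideal.span {α * γ}) - dv p (Ideal.span {α' * γ}) := by
    rw [e1, e2]
    abel
  rw [e3]
  exact Submodule.sub_mem _ m1 m2

theorem fin_image (𝔫 : Ideal (𝓞 F)) (h𝔫 : 𝔫 ≠ ⊥) :
    ((Wn p 𝔫).mkQ '' {x | ∃ I : Ideal (𝓞 F), I ≠ ⊥ ∧ I ⊔ 𝔫 = ⊤ ∧ dv p I = x}).Finite := by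
  classical
  obtain ⟨h, c, hc, hrep⟩ := Pool.Agent.Helper3.RS.s_rep F 𝔫 h𝔫
  have hdat : ∀ u : ↥((Wn p 𝔫).mkQ '' {x | ∃ I : Ideal (𝓞 F), I ≠ ⊥ ∧ I ⊔ 𝔫 = ⊤ ∧ dv p I = x}),
      ∃ (I : Ideal (𝓞 F)) (j : Fin h) (α : 𝓞 F), I ≠ ⊥ ∧ I ⊔ 𝔫 = ⊤ ∧
        (Wn p 𝔫).mkQ (dv p I) = u.1 ∧ I * c j = Ideal.span {α} := by
    rintro ⟨u, x, ⟨I, h1, h2, rfl⟩, rfl⟩
    obtain ⟨j, hj, _⟩ := hrep I h1
    obtain ⟨α, hα⟩ := hj
    exact ⟨I, j, α, h1, h2, rfl, hα⟩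
  choose I j α h1 h2 h3 h4 using hdat
  have hfin : Finite (𝓞 F ⧸ 𝔫) := Ideal.finiteQuotientOfFreeOfNeBot 𝔫 h𝔫
  have hinj : Function.Injective
      (fun u => ((j u, Ideal.Quotient.mk 𝔫 (α u)) : Fin h × (𝓞 F ⧸ 𝔫))) := by
    intro u u' huu
    have hj : j u = j u' := congrArg Prod.fst huu
    have hα : Ideal.Quotient.mk 𝔫 (α u') = Ideal.Quotient.mk 𝔫 (α u) := (congrArg Prod.snd huu).symm
    rw [Ideal.Quotient.eq] at hα
    apply Subtype.ext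
    rw [← h3 u, ← h3 u', ← sub_eq_zero, ← map_sub, Submodule.mkQ_apply,
      Submodule.Quotient.mk_eq_zero]
    have h5 := h4 u'
    rw [← hj] at h5
    exact key p (h1 u) (h1 u') (hc (j u)).1 (h2 u) (hc (j u)).2 (h4 u) h5 hα
  have := Finite.of_injective _ hinj
  exact Set.toFinite _

end

theorem l_rcf : Pool.Agent.Helper11.LE.L_RCF := by
  classical
  intro p hp F _ _ 𝔫 h𝔫
  have hfin := fin_image p 𝔫 h𝔫
  have : Fintype ↥((Wn p 𝔫).mkQ '' {x | ∃ I : Ideal (𝓞 F), I ≠ ⊥ ∧ I ⊔ 𝔫 = ⊤ ∧ dv p I = x}) :=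
    hfin.fintype
  set A : Set ((Ideal (𝓞 F) →₀ ZMod p) ⧸ Wn p 𝔫) :=
    (Wn p 𝔫).mkQ '' {x | ∃ I : Ideal (𝓞 F), I ≠ ⊥ ∧ I ⊔ 𝔫 = ⊤ ∧ dv p I = x} with hA
  have hsep : ∀ u : A, ∃ f : ((Ideal (𝓞 F) →₀ ZMod p) ⧸ Wn p 𝔫) →ₗ[ZMod p] ZMod p,
      f u.1 = 0 → u.1 = 0 := by
    intro u
    by_cases hu : u.1 = 0
    · exact ⟨0, fun _ => hu⟩
    · by_contra hno
      push Not at hno
      exact hu ((Module.forall_dual_apply_eq_zero_iff (ZMod p) u.1).1 fun f => (hno f).1)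
  choose f hf using hsep
  let e := Fintype.equivFin A
  refine ⟨Fintype.card A, fun i I => f (e.symm i) ((Wn p 𝔫).mkQ (dv p I)), ⟨h𝔫, ?_, ?_⟩, ?_⟩
  · intro i I J hI hJ _ _
    show f (e.symm i) ((Wn p 𝔫).mkQ (dv p (I * J))) = _
    rw [dv_mul p hI hJ, map_add, map_add]
  · intro i α hα hα'
    show f (e.symm i) ((Wn p 𝔫).mkQ (dv p (Ideal.span {α}))) = 0
    have h1 : dv p (Ideal.span {α}) ∈ Wn p 𝔫 := Submodule.subset_span (Or.inr ⟨α, hα, hα', rfl⟩)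
    rw [Submodule.mkQ_apply, (Submodule.Quotient.mk_eq_zero _).2 h1, map_zero]
  · intro c hc hsum
    set x : Ideal (𝓞 F) →₀ ZMod p :=
      ∑ Q ∈ c.support, (c Q : ZMod p) • Finsupp.single Q.asIdeal (1 : ZMod p) with hx
    have hxV : x ∈ Vn p 𝔫 := by
      rw [hx]
      refine Submodule.sum_mem _ fun Q hQ => Submodule.smul_mem _ _ ?_
      exact Submodule.subset_span ⟨Q, hc Q (Finsupp.mem_support_iff.1 hQ), rfl⟩
    obtain ⟨I, h1, h2, h3⟩ := exists_ideal p 𝔫 x hxV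
    have hxA : (Wn p 𝔫).mkQ x ∈ A := ⟨x, ⟨I, h1, h2, h3⟩, rfl⟩
    have h4 : (Wn p 𝔫).mkQ x = 0 := by
      refine hf ⟨_, hxA⟩ ?_
      have h5 := hsum (e ⟨_, hxA⟩)
      simp only [Equiv.symm_apply_apply] at h5
      show f ⟨(Wn p 𝔫).mkQ x, hxA⟩ ((Wn p 𝔫).mkQ x) = 0
      generalize f ⟨(Wn p 𝔫).mkQ x, hxA⟩ = g at h5
      rw [← h5, hx, map_sum, map_sum]
      refine Finset.sum_congr rfl fun Q _ => ?_
      rw [map_smul, map_smul, smul_eq_mul, dv_prime]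
    rw [Submodule.mkQ_apply, Submodule.Quotient.mk_eq_zero] at h4
    obtain ⟨b, hb0, hb1, hb⟩ := span_gen p 𝔫 (Hn 𝔫) x h4
    refine ⟨b, hb0, hb1, fun Q hQ => ?_⟩
    have hQH : Q.asIdeal ∉ Hn 𝔫 := fun h => h hQ
    have h6 := hb _ hQH
    have h7 : x Q.asIdeal = (c Q : ZMod p) := by
      rw [hx, Finsupp.finsetSum_apply]
      have h8 : ∀ R ∈ c.support, ((c R : ZMod p) • Finsupp.single R.asIdeal (1 : ZMod p)) Q.asIdeal =
          if R = Q then (c R : ZMod p) else 0 := by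
        intro R _
        rw [Finsupp.smul_apply, Finsupp.single_apply, smul_eq_mul]
        by_cases hR : R = Q
        · subst hR
          rw [if_pos rfl, if_pos rfl, mul_one]
        · rw [if_neg hR, if_neg (fun h => hR (HeightOneSpectrum.ext h)), mul_zero]
      rw [Finset.sum_congr rfl h8, Finset.sum_ite_eq']
      by_cases hQs : Q ∈ c.support
      · rw [if_pos hQs]
      · rw [if_neg hQs, Finsupp.notMem_support_iff.1 hQs, Int.cast_zero]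
    have h9 : ordv Q ((b : 𝓞 F) : F) =
        ((normalizedFactors (Ideal.span {b})).count Q.asIdeal : ℤ) := by
      unfold ordv
      have h10 := val_count Q hb0
      have h11 : ((b : 𝓞 F) : F) = algebraMap (𝓞 F) F b := rfl
      rw [h11, h10, WithZero.log_exp, neg_neg]
    rw [h7, dv_apply] at h6
    rw [h9, ← ZMod.intCast_zmod_eq_zero_iff_dvd]
    push_cast
    rw [h6, sub_self]

end Pool.Agent.Helper26.LE
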